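import Pool.Agent.H17.EQ.TargetsQ

/-!
# ALP: the coordinates of `x` (MP_70ba79_ag, board ee_modules, part Q)
-/

set_option autoImplicit false

namespace Pool.Agent.H34.EQ

open MvPolynomial SC Pool.Agent.H27.LV Pool.Agent.H17.VG Pool.Agent.H17.BO Pool.Agent.H30.EE
  Pool.Agent.H17.EQ

theorem eval_mul_hom {K : Type} [Field K] {n d : ℕ} {G : MvPolynomial (Fin (n + 1)) K}
    (hG : G.IsHomogeneous d) (c : K) (y : Fin (n + 1) → K) :
    eval (fun j => c * y j) G = c ^ d * eval y G := by
  rw [eval_eq, eval_eq, Finset.mul_sum]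
  refine Finset.sum_congr rfl fun m hm => ?_
  have h1 : ∑ i ∈ m.support, m i = d := by
    have h2 := hG (mem_support_iff.1 hm)
    rw [Finsupp.weight_apply, Finsupp.sum] at h2
    simpa using h2
  have h3 : ∏ i ∈ m.support, (c * y i) ^ m i = c ^ d * ∏ i ∈ m.support, y i ^ m i := by
    rw [← h1, ← Finset.prod_pow_eq_pow_sum, ← Finset.prod_mul_distrib]
    exact Finset.prod_congr rfl fun i _ => mul_pow _ _ _
  rw [h3]
  ring

theorem pf_ALP : Pool.Agent.H17.EQ.T_ALP := by
  intro K _ n r d F x ζ ν _ hF hx hP α hα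
  have hpt : ∀ j, ∑ i, ζ i j * α i = x j := by
    intro j
    have h := hP.pt j
    rw [← h]
    exact Finset.sum_congr rfl fun i _ => by rw [hα i]
  have hrnc : ∀ i i' l l' : Fin (r + 1 + 1), (i : ℕ) + i' = l + l' → α i * α i' = α l * α l' := by
    intro i i' l l' h
    rw [hα, hα, hα, hα]
    exact hP.rnc i i' l l' h
  -- a point of the form `c y` with `F y = 0` is impossible
  have hno : ∀ (c : K) (y : Fin (n + 1) → K), eval y F = 0 → (∀ j, x j = c * y j) → False := by
    intro c y hy hxy
    apply hx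
    have : x = fun j => c * y j := funext hxy
    rw [this, eval_mul_hom hF, hy, mul_zero]
  -- only one coordinate is not zero
  have hone : ∀ i0 : Fin (r + 1 + 1), (∀ i, i ≠ i0 → α i = 0) → eval (ζ i0) F = 0 → False := by
    intro i0 h0 hz
    refine hno (α i0) (ζ i0) hz fun j => ?_
    rw [← hpt j, Finset.sum_eq_single i0 (fun i _ hi => by rw [h0 i hi, mul_zero])
      (fun h => absurd (Finset.mem_univ i0) h), mul_comm]
  have h00 : α 0 ≠ 0 := by
    intro h0
    refine hone (Fin.last (r + 1)) ?_ hP.p2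
    have hind : ∀ (m : ℕ) (hm : m < r + 1), α ⟨m, by omega⟩ = 0 := by
      intro m
      induction m with
      | zero => exact fun _ => h0
      | succ m ih =>
        intro hm
        have h1 := hrnc ⟨m + 1, by omega⟩ ⟨m + 1, by omega⟩ ⟨m, by omega⟩ ⟨m + 2, by omega⟩
          (by show m + 1 + (m + 1) = m + (m + 2); omega)
        rw [ih (by omega), zero_mul] at h1
        exact mul_self_eq_zero.1 h1
    intro i hi
    have hlt : (i : ℕ) < r + 1 := by
      rcases Nat.lt_or_ge (i : ℕ) (r + 1) with h | h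
      · exact h
      · exfalso
        apply hi
        apply Fin.ext
        rw [Fin.val_last]
        have := i.2
        omega
    exact hind i hlt
  have hgeo : ∀ (m : ℕ) (hm : m < r + 1 + 1), α ⟨m, hm⟩ = α 0 * (α 1 / α 0) ^ m := by
    intro m
    induction m with
    | zero =>
      intro hm
      rw [pow_zero, mul_one]
      rfl
    | succ m ih =>
      intro hm
      have h1 := hrnc 0 ⟨m + 1, hm⟩ 1 ⟨m, by omega⟩ (by
        show 0 + (m + 1) = ((1 : Fin (r + 1 + 1)) : ℕ) + m
        rw [Fin.val_one]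
        omega)
      rw [ih (by omega)] at h1
      have h2 : α ⟨m + 1, hm⟩ = α 1 * (α 0 * (α 1 / α 0) ^ m) / α 0 := by
        rw [← h1, mul_div_cancel_left₀ _ h00]
      rw [h2, pow_succ]
      field_simp
  have h10 : α 1 ≠ 0 := by
    intro h1
    refine hone 0 ?_ hP.p0
    intro i hi
    have h2 := hgeo i i.2
    rw [h1, zero_div] at h2
    have h3 : (i : ℕ) ≠ 0 := by
      intro h
      apply hi
      apply Fin.ext
      rw [h]
      rfl
    rw [zero_pow h3, mul_zero] at h2
    exact h2
  refine ⟨h00, h10, ?_, fun i => hgeo i i.2⟩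
  intro h1
  refine hno (α 0) (fun j => ∑ i, ζ i j) hP.p1 fun j => ?_
  rw [← hpt j, Finset.mul_sum]
  refine Finset.sum_congr rfl fun i _ => ?_
  have h2 := hgeo i i.2
  rw [h1, div_self h00, one_pow, mul_one] at h2
  have h3 : α i = α 0 := h2
  rw [h3, mul_comm]

end Pool.Agent.H34.EQ
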